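import Pool.Agent.MP_ad39f2_ag.H14.Main

open Pool.Agent.MP_ad39f2_ag.H14

namespace Pool.Agent.Results.MP_ad39f2_ag.GLSFalse

/-- There are a consistent weighted configuration of infinitely near points of the complex
projective plane (with all weights at least two) and a degree `d` larger than the sum of the three
largest weights such that, for every configuration with the same proximities, the space of curves
of degree `d` through it has more than the expected dimension. -/
theorem result :
    ∃ (ι : Type) (_ : Fintype ι) (C : ι → LocalSubring K) (r : ι → ℕ) (d : ℕ),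
      IsConfig C ∧ Consistent C r ∧ (∀ i, 2 ≤ r i) ∧
      (∀ s : Finset ι, s.card ≤ 3 → ∑ i ∈ s, r i < d) ∧
      ∀ C' : ι → LocalSubring K, IsConfig C' → SameProx C C' →
        ∃ W : Submodule ℂ (MvPolynomial (Fin 3) ℂ),
          (W : Set (MvPolynomial (Fin 3) ℂ)) = sections C' r d ∧
          max 0 ((((d + 2).choose 2 : ℕ) : ℤ) - ∑ i, (((r i + 1).choose 2 : ℕ) : ℤ)) <
            (Module.finrank ℂ W : ℤ) := by
  refine ⟨Idx, inferInstance, pt, wt, 27, isConfig_pt, consistent_pt, two_le_wt, three_largest,
    fun C' hC hS => ?_⟩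
  obtain ⟨W, hW, hpos⟩ := sections_pos C' hC hS
  refine ⟨W, hW, ?_⟩
  rw [← Nat.cast_sum, sum_choose]
  have : (27 + 2).choose 2 = 406 := by decide
  rw [this]
  omega

end Pool.Agent.Results.MP_ad39f2_ag.GLSFalse
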